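import Pool.Agent.Helper95.PM.Stmts

set_option autoImplicit false

namespace Pool.Agent.Helper95.PW

open MeasureTheory Filter

theorem aidm_dvF {n : ℕ} (g : R3 → ℝ) (hg : ContDiff ℝ (⊤ : ℕ∞) g) (v : Cf n → ℝ)
    (hv : ContDiff ℝ (⊤ : ℕ∞) v) (k : Fin n) (i : Fin 3) (x : Cf n) :
    dv k i (Fg g v) x = pd i g (x k) * v x + (∑ l, g (x l)) * dv k i v x := by
  have h1 : HasFDerivAt v (fderiv ℝ v x) x := ((hv.differentiable (by simp)) x).hasFDerivAt
  have h2 : ∀ l : Fin n, HasFDerivAt (fun y : Cf n => g (y l))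
      ((fderiv ℝ g (x l)).comp (ContinuousLinearMap.proj (R := ℝ) (φ := fun _ : Fin n => R3) l))
      x := by
    intro l
    have ha : HasFDerivAt g (fderiv ℝ g (x l)) (x l) :=
      ((hg.differentiable (by simp)) (x l)).hasFDerivAt
    have hb : HasFDerivAt (fun y : Cf n => y l)
      (ContinuousLinearMap.proj (R := ℝ) (φ := fun _ : Fin n => R3) l) x :=
      (ContinuousLinearMap.proj (R := ℝ) (φ := fun _ : Fin n => R3) l).hasFDerivAt
    exact HasFDerivAt.comp x ha hb
  have h3 : HasFDerivAt (fun y : Cf n => ∑ l, g (y l))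
      (∑ l, (fderiv ℝ g (x l)).comp
        (ContinuousLinearMap.proj (R := ℝ) (φ := fun _ : Fin n => R3) l)) x :=
    HasFDerivAt.fun_sum fun l _ => h2 l
  have h4 := h3.mul h1
  have h5 : fderiv ℝ (Fg g v) x = (∑ l, g (x l)) • fderiv ℝ v x + v x •
      (∑ l, (fderiv ℝ g (x l)).comp
        (ContinuousLinearMap.proj (R := ℝ) (φ := fun _ : Fin n => R3) l)) := h4.fderiv
  unfold dv
  rw [h5]
  have h6 : (∑ l, (fderiv ℝ g (x l)).comp
        (ContinuousLinearMap.proj (R := ℝ) (φ := fun _ : Fin n => R3) l))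
        (Pi.single k (Pi.single i 1)) = pd i g (x k) := by
    rw [ContinuousLinearMap.sum_apply]
    rw [Finset.sum_eq_single k]
    · simp [pd]
    · intro l _ hl
      simp [Pi.single_eq_of_ne hl]
    · intro h
      exact absurd (Finset.mem_univ k) h
  rw [ContinuousLinearMap.add_apply, ContinuousLinearMap.smul_apply,
    ContinuousLinearMap.smul_apply, h6]
  simp only [smul_eq_mul]
  ring

theorem aidm_PF {n : ℕ} (g : R3 → ℝ) (hg : ContDiff ℝ (⊤ : ℕ∞) g) (v : Cf n → ℝ)
    (hv : ContDiff ℝ (⊤ : ℕ∞) v) (x : Cf n) :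
    Pg g (Fg g v) x = (∑ l, g (x l)) * Pg g v x + (∑ k, grd g (x k)) * v x := by
  have h : ∀ k : Fin n, (∑ i, pd i g (x k) * dv k i (Fg g v) x) =
      (∑ l, g (x l)) * (∑ i, pd i g (x k) * dv k i v x) + grd g (x k) * v x := by
    intro k
    unfold grd
    rw [Finset.mul_sum, Finset.sum_mul, ← Finset.sum_add_distrib]
    refine Finset.sum_congr rfl fun i _ => ?_
    rw [aidm_dvF g hg v hv]
    ring
  unfold Pg
  rw [Finset.mul_sum, Finset.sum_mul, ← Finset.sum_add_distrib]
  refine Finset.sum_congr rfl fun k _ => ?_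
  rw [h k]
  simp only [Fg]
  ring

theorem aidm_cd {n : ℕ} (k : Fin n) (i : Fin 3) (v : Cf n → ℝ)
    (hv : ContDiff ℝ (⊤ : ℕ∞) v) : ContDiff ℝ (⊤ : ℕ∞) (dv k i v) := by
  have h := hv.fderiv_right (m := ((⊤ : ℕ∞) : WithTop ℕ∞)) (by simp)
  exact h.clm_apply contDiff_const

theorem aidm_ic {n : ℕ} (a b : Cf n → ℝ) (ha : ContDiff ℝ (⊤ : ℕ∞) a) (hca : HasCompactSupport a)
    (hb : Continuous b) : Integrable (fun x : Cf n => a x * b x) :=
  (ha.continuous.mul hb).integrable_of_hasCompactSupport hca.mul_right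

theorem aidm_ih (hINT : ST_INTM) {n M : ℕ} (X : Fin M → R3) (Z : Fin M → ℝ) (a b : Cf n → ℝ)
    (ha : ContDiff ℝ (⊤ : ℕ∞) a)
    (hca : HasCompactSupport a) (hb : ContDiff ℝ (⊤ : ℕ∞) b) (hcb : HasCompactSupport b) :
    Integrable (fun x : Cf n => a x * hmM X Z b x) := by
  obtain ⟨h1, h2, -, -⟩ := hINT n M X Z a b ha hca hb hcb
  have h3 : Integrable (fun x : Cf n => a x * -(∑ k, ∑ i, dv k i (dv k i b) x)) := by
    refine aidm_ic a _ ha hca ?_
    refine Continuous.neg ?_
    refine continuous_finset_sum _ fun k _ => ?_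
    refine continuous_finset_sum _ fun i _ => ?_
    exact (aidm_cd k i _ (aidm_cd k i _ hb)).continuous
  have h4 := (h3.add h2).sub h1
  refine h4.congr (Filter.Eventually.of_forall fun x => ?_)
  simp only [Pi.add_apply, Pi.sub_apply, hmM]
  ring

theorem st_AIDM (hQH : ST_QHM) (hHF : ST_HFM) (hPAN : ST_PAN) (hSTB : ST_STB)
    (hINT : ST_INTM) : ST_AIDM := by
  intro n M X Z E g u hg hu
  obtain ⟨hF, hP, -⟩ := hSTB n g u hg hu
  obtain ⟨hFF, -, -⟩ := hSTB n g (fun s => Fg g (u s)) hg hF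
  have hq := hQH n M X Z (fun s => Fg g (u s)) (fun s => Fg g (u s)) hF hF
  rw [hq.2, hq.1]
  unfold sq one
  rw [Finset.mul_sum, ← Finset.sum_sub_distrib, ← Finset.sum_add_distrib]
  refine Finset.sum_congr rfl fun s _ => ?_
  have hv := (hu s).1
  have hcv := (hu s).2
  have hFv : ContDiff ℝ (⊤ : ℕ∞) (Fg g (u s)) := (hF s).1
  have hcFv : HasCompactSupport (Fg g (u s)) := (hF s).2
  have hPv : ContDiff ℝ (⊤ : ℕ∞) (Pg g (u s)) := (hP s).1
  have hFFv : ContDiff ℝ (⊤ : ℕ∞) (Fg g (Fg g (u s))) := (hFF s).1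
  have hcFFv : HasCompactSupport (Fg g (Fg g (u s))) := (hFF s).2
  have i1 : Integrable (fun x : Cf n => Fg g (u s) x * hmM X Z (Fg g (u s)) x) :=
    aidm_ih hINT X Z _ _ hFv hcFv hFv hcFv
  have i2 : Integrable (fun x : Cf n => E * (Fg g (u s) x) ^ 2) := by
    have := (aidm_ic _ _ hFv hcFv hFv.continuous).const_mul E
    refine this.congr (Filter.Eventually.of_forall fun x => ?_)
    simp only
    ring
  have i3 : Integrable (fun x : Cf n => Fg g (Fg g (u s)) x * hmM X Z (u s) x) :=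
    aidm_ih hINT X Z _ _ hFFv hcFFv hv hcv
  have i4 : Integrable (fun x : Cf n => Fg g (Fg g (u s)) x * (E * u s x)) :=
    aidm_ic _ _ hFFv hcFFv (continuous_const.mul hv.continuous)
  have i5 : Integrable (fun x : Cf n => Fg g (u s) x * Pg g (u s) x) :=
    aidm_ic _ _ hFv hcFv hPv.continuous
  have hcg : Continuous (fun x : Cf n => ∑ k, grd g (x k)) := by
    refine continuous_finset_sum _ fun k _ => ?_
    unfold grd
    refine continuous_finset_sum _ fun i _ => ?_
    have h7 : Continuous (pd i g) := by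
      have h8 := hg.fderiv_right (m := ((⊤ : ℕ∞) : WithTop ℕ∞)) (by simp)
      exact (h8.clm_apply contDiff_const).continuous
    exact (h7.comp (continuous_apply k)).pow 2
  have i6 : Integrable (fun x : Cf n => (∑ k, grd g (x k)) * u s x ^ 2) := by
    have := aidm_ic _ _ hv hcv (hcg.mul hv.continuous)
    refine this.congr (Filter.Eventually.of_forall fun x => ?_)
    simp only [Pi.mul_apply]
    ring
  -- the identity of `PAN`
  have hp := hPAN n g (u s) (Fg g (u s)) hg hv hcv hFv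
  have hp1 : ∫ x, Pg g (u s) x * Fg g (u s) x = ∫ x, Fg g (u s) x * Pg g (u s) x :=
    integral_congr_ae (Filter.Eventually.of_forall fun x => by simp only; ring)
  have hp2 : ∫ x, u s x * Pg g (Fg g (u s)) x =
      (∫ x, Fg g (u s) x * Pg g (u s) x) + ∫ x, (∑ k, grd g (x k)) * u s x ^ 2 := by
    rw [← integral_add i5 i6]
    refine integral_congr_ae (Filter.Eventually.of_forall fun x => ?_)
    simp only
    rw [aidm_PF g hg (u s) hv]
    simp only [Fg]
    ring
  rw [hp1, hp2] at hp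
  have hL : (∫ x, Fg g (u s) x * hmM X Z (Fg g (u s)) x) - E * ∫ x, (Fg g (u s) x) ^ 2 =
      ∫ x, (Fg g (u s) x * hmM X Z (Fg g (u s)) x - E * (Fg g (u s) x) ^ 2) := by
    rw [integral_sub i1 i2, integral_const_mul]
  have hR : ∫ x, Fg g (Fg g (u s)) x * (hmM X Z (u s) x - E * u s x) =
      (∫ x, (Fg g (u s) x * hmM X Z (Fg g (u s)) x - E * (Fg g (u s) x) ^ 2)) +
        2 * ∫ x, Fg g (u s) x * Pg g (u s) x := by
    have i7 : Integrable (fun x : Cf n =>
        Fg g (u s) x * hmM X Z (Fg g (u s)) x - E * (Fg g (u s) x) ^ 2) := i1.sub i2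
    rw [← integral_const_mul, ← integral_add i7 (i5.const_mul 2)]
    refine integral_congr_ae (Filter.Eventually.of_forall fun x => ?_)
    simp only
    rw [hHF n M X Z g (u s) x hg hv]
    simp only [Fg]
    ring
  rw [hL, hR]
  linarith

end Pool.Agent.Helper95.PW
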